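import Pool.Agent.H27.L1.H34.GHK.GBH
import Pool.Agent.H27.L1.H46.GHK.GBP

/-!
Board ghk: the fourth moment at one level with all the admissible weights.
-/

set_option autoImplicit false

namespace Pool.Agent.H27.L1.H34.GHK

open MeasureTheory Pool.Agent.H27.L1.H34.GM Pool.Agent.H27.L1.H34.GZ Pool.Agent.H27.L1.H34.GU Pool.Agent.H27.L1.H34.GA
open Pool.Agent.H27.L1.H68.GHY Pool.Agent.H27.L1.H34.GHY Pool.Agent.H27.L1.H34.GZZ Pool.Agent.H27.L1.H68.GHK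

/-- the density of Plancherel's measure, symmetric form -/
noncomputable def pl {m : ℕ} (mu : Fin m → ℂ) : ℝ :=
  ∏ i, ∏ j, (1 + max 0 ((mu i).im - (mu j).im))

/-- Weyl's group -/
def T_WYE : Prop := ∀ (m N : ℕ) [NeZero N] (T : ℕ → Finset (ZM m)) (F : Mat m → VN m N → ℂ)
  (lam : ℕ → ℂ) (mu : Fin m → ℂ) (σ : Equiv.Perm (Fin m)), EigU m N T F lam mu →
  EigU m N T F lam (mu ∘ σ)

/-- the density does not depend on the order of the parameters -/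
lemma pl_perm {m : ℕ} (mu : Fin m → ℂ) (σ : Equiv.Perm (Fin m)) : pl (mu ∘ σ) = pl mu := by
  unfold pl
  rw [← Equiv.prod_comp σ (fun i => ∏ j, (1 + max 0 ((mu i).im - (mu j).im)))]
  refine Finset.prod_congr rfl (fun i _ => ?_)
  rw [← Equiv.prod_comp σ (fun j => (1 + max 0 ((mu (σ i)).im - (mu j).im)))]
  rfl

lemma pl_pos {m : ℕ} (mu : Fin m → ℂ) : 0 < pl mu :=
  Finset.prod_pos fun i _ => Finset.prod_pos fun j _ => by
    have := le_max_left 0 ((mu i).im - (mu j).im)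
    linarith

/-- the density for ordered parameters -/
lemma pl_mono {m : ℕ} (mu : Fin m → ℂ) (h : Monotone (fun j => (mu j).im)) : pl mu = Wt mu := by
  unfold pl Wt
  rw [Finset.prod_comm]
  refine Finset.prod_congr rfl (fun i _ => Finset.prod_congr rfl (fun j _ => ?_))
  split_ifs with hij
  · have h1 : (mu i).im ≤ (mu j).im := h hij.le
    rw [max_eq_right (by linarith), abs_of_nonneg (by linarith)]
  · have h1 : (mu j).im ≤ (mu i).im := h (not_lt.1 hij)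
    rw [max_eq_left (by linarith), add_zero]

/-- a cusp form which is spherical -/
lemma cuspU_of {m N : ℕ} [NeZero N] {T : ℕ → Finset (ZM m)} {F : Mat m → VN m N → ℂ}
    {lam : ℕ → ℂ} {mu : Fin m → ℂ} (h : CusB m N T F lam) (h' : EigU m N T F lam mu) :
    CuspU m N T F lam mu where
  toEigU := h'
  prim := h.prim
  cusp := h.cusp

open Classical in
/-- one level, spherical forms -/
theorem lev_sph (h_GBH : T_GBH) (h_HKW : T_HKW) (h_ORS : T_ORS) (h_APU : T_APU) (m : ℕ)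
    (hm1 : 1 ≤ m) (ε : ℝ) (hε : 0 < ε) : ∃ C : ℝ, 0 < C ∧
    ∀ (N : ℕ) [NeZero N] (T : ℕ → Finset (ZM m)) (D : Set (V m)), SysZ m N T D →
      ∀ P : ℝ, 1 ≤ P → ∀ (S : Type) [Fintype S] [DecidableEq S]
        (F : S → Mat m → VN m N → ℂ) (lam : S → ℕ → ℂ) (mu : S → Fin m → ℂ) (W : S → ℝ),
        (∀ i, CuspU m N T (F i) (lam i) (mu i) ∧ Lip D (F i) P ∧
          Monotone (fun j => (mu i j).im)) → Orthn D F → (∀ i, W i ≤ Wt (mu i)) →
        ∃ L : S → ℂ → ℂ, (∀ i, IsL m 1 (lam i) (L i)) ∧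
          ∀ J : S → Finset ℝ, (∀ i, Wsp (J i)) → (∀ i, ∀ t ∈ J i, |t| ≤ P) →
            ∑ i, W i * ∑ t ∈ J i, ‖L i (1 / 2 + t * Complex.I)‖ ^ 4 ≤
              C * ((N : ℝ) * P) ^ ε * (N : ℝ) ^ m * P ^ (m ^ 2) := by
  obtain ⟨r, hr, hH⟩ := h_HKW m hm1
  obtain ⟨CH, hCH, hH⟩ := hH ((m : ℝ) ^ 2)
  obtain ⟨C, hC, h⟩ := h_GBH m hm1 r ε hr hε
  refine ⟨CH * C, by positivity, ?_⟩
  intro N _ T D hS P hP S _ _ F lam mu W hF ho hW
  have hO := h_ORS m N T D hS S F lam mu (fun i => (hF i).1) ho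
  obtain ⟨L, hL, hb⟩ := h N T D hS P hP S F lam
    (fun i => ⟨Pool.Agent.H27.L1.H46.GHK.cusB_of_cuspU (hF i).1, (hF i).2.1⟩) hO
  refine ⟨L, hL, fun J hJ hJP => ?_⟩
  calc ∑ i, W i * ∑ t ∈ J i, ‖L i (1 / 2 + t * Complex.I)‖ ^ 4 ≤
      ∑ i, CH * ((Hn r D (F i))⁻¹ * ∑ t ∈ J i, ‖L i (1 / 2 + t * Complex.I)‖ ^ 4) := by
        refine Finset.sum_le_sum (fun i _ => ?_)
        rw [← mul_assoc]
        refine mul_le_mul_of_nonneg_right ?_ (Finset.sum_nonneg (fun t _ => by positivity))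
        have hnz : NZ (F i) := Pool.Agent.H27.L1.H46.GHK.nz_of_norm hm1 hS.dom (hO.one i)
        obtain ⟨h1, h2⟩ := hH N T D hS (F i) (lam i) (mu i) (hF i).1 (hO.one i)
          (Pool.Agent.H27.L1.H46.GHK.re_bd (mu i) (hF i).1.tr0
            (fun j => h_APU m N T (F i) (lam i) (mu i) hm1 (hF i).1.toEigU hnz j)) (hF i).2.2
        have hWt : 0 < Wt (mu i) := Pool.Agent.H27.L1.H46.GHK.wt_pos (mu i)
        refine (hW i).trans ?_
        rw [← div_eq_mul_inv, le_div_iff₀ h2]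
        rw [le_div_iff₀ hWt] at h1
        linarith
    _ = CH * ∑ i, (Hn r D (F i))⁻¹ * ∑ t ∈ J i, ‖L i (1 / 2 + t * Complex.I)‖ ^ 4 := by
        rw [Finset.mul_sum]
    _ ≤ CH * (C * ((N : ℝ) * P) ^ ε * (N : ℝ) ^ m * P ^ (m ^ 2)) :=
        mul_le_mul_of_nonneg_left (hb J hJ hJP) hCH.le
    _ = _ := by ring

/-- the L-function is unique -/
lemma isl_eq {m : ℕ} {lam : ℕ → ℂ} {L L' : ℂ → ℂ} (h : IsL m 1 lam L) (h' : IsL m 1 lam L') :
    L = L' := by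
  have ha : AnalyticOnNhd ℂ L Set.univ := h.1.differentiableOn.analyticOnNhd isOpen_univ
  have ha' : AnalyticOnNhd ℂ L' Set.univ := h'.1.differentiableOn.analyticOnNhd isOpen_univ
  refine ha.eq_of_eventuallyEq ha' (z₀ := ((m : ℝ) + 3 : ℝ)) ?_
  have hO : IsOpen {s : ℂ | (m : ℝ) + 2 < s.re} := isOpen_lt continuous_const Complex.continuous_re
  have hm : (((m : ℝ) + 3 : ℝ) : ℂ) ∈ {s : ℂ | (m : ℝ) + 2 < s.re} := by
    show (m : ℝ) + 2 < (((m : ℝ) + 3 : ℝ) : ℂ).re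
    rw [Complex.ofReal_re]
    linarith
  filter_upwards [hO.mem_nhds hm] with s hs
  exact (h.2 s hs).unique (h'.2 s hs)

/-- a subfamily of an orthonormal family -/
lemma orthn_sub {m N : ℕ} [NeZero N] {S : Type} [DecidableEq S] {D : Set (V m)}
    {F : S → Mat m → VN m N → ℂ} (h : Orthn D F) (p : S → Prop) [DecidableEq {i // p i}] :
    Orthn D (fun i : {i // p i} => F i.1) := by
  refine ⟨fun i j x => h.1 i.1 j.1 x, fun i j => ?_⟩
  refine (h.2 i.1 j.1).trans ?_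
  by_cases hij : i = j
  · rw [if_pos hij, if_pos (congrArg Subtype.val hij)]
  · rw [if_neg hij, if_neg (fun h2 => hij (Subtype.ext h2))]

open Classical in
/-- one level, all weights -/
theorem lev_all (h_GBZ : T_GBZ) (h_GBH : T_GBH) (h_HKW : T_HKW) (h_ORS : T_ORS) (h_APU : T_APU)
    (h_WYE : T_WYE) (m : ℕ) (hm1 : 1 ≤ m) (ε : ℝ) (hε : 0 < ε) : ∃ C : ℝ, 0 < C ∧
    ∀ (N : ℕ) [NeZero N] (T : ℕ → Finset (ZM m)) (D : Set (V m)), SysZ m N T D →
      ∀ P : ℝ, 1 ≤ P → ∀ (S : Type) [Fintype S] [DecidableEq S]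
        (F : S → Mat m → VN m N → ℂ) (lam : S → ℕ → ℂ) (W : S → ℝ),
        (∀ i, CusB m N T (F i) (lam i) ∧ Lip D (F i) P) → Orthn D F → (∀ i, 0 ≤ W i) →
        (∀ i, W i ≤ 1 ∨ (∃ mu : Fin m → ℂ, EigU m N T (F i) (lam i) mu ∧ W i ≤ pl mu) ∨
          ((∀ j, j ≠ i → ∀ u : Mat m, u.det ≠ 0 → ip D (rt u (F i)) (F j) = 0) ∧
            W i ≤ (Hn (1 / (2 * (m : ℝ))) D (F i))⁻¹)) →
        ∃ L : S → ℂ → ℂ, (∀ i, IsL m 1 (lam i) (L i)) ∧
          ∀ J : S → Finset ℝ, (∀ i, Wsp (J i)) → (∀ i, ∀ t ∈ J i, |t| ≤ P) →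
            ∑ i, W i * ∑ t ∈ J i, ‖L i (1 / 2 + t * Complex.I)‖ ^ 4 ≤
              C * ((N : ℝ) * P) ^ ε * (N : ℝ) ^ m * P ^ (m ^ 2) := by
  have hm0 : (0 : ℝ) < m := by exact_mod_cast hm1
  obtain ⟨C1, hC1, h1⟩ := h_GBZ m hm1 ε hε
  obtain ⟨C2, hC2, h2⟩ := lev_sph h_GBH h_HKW h_ORS h_APU m hm1 ε hε
  obtain ⟨C3, hC3, h3⟩ := h_GBH m hm1 (1 / (2 * (m : ℝ))) ε (by positivity) hε
  refine ⟨C1 + C2 + C3, by positivity, ?_⟩
  intro N _ T D hS P hP S _ _ F lam W hF ho hW0 hW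
  obtain ⟨L, hL, hb1⟩ := h1 N T D hS P hP S F lam hF ho
  -- the three kinds
  obtain ⟨p2, hp2⟩ : ∃ p : S → Prop, p = fun i => ∃ mu : Fin m → ℂ,
    EigU m N T (F i) (lam i) mu ∧ W i ≤ pl mu := ⟨_, rfl⟩
  obtain ⟨p3, hp3⟩ : ∃ p : S → Prop, p = fun i =>
    (∀ j, j ≠ i → ∀ u : Mat m, u.det ≠ 0 → ip D (rt u (F i)) (F j) = 0) ∧
      W i ≤ (Hn (1 / (2 * (m : ℝ))) D (F i))⁻¹ := ⟨_, rfl⟩
  have hp2' : ∀ i, p2 i → ∃ mu : Fin m → ℂ, EigU m N T (F i) (lam i) mu ∧ W i ≤ pl mu := by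
    intro i hi
    rw [hp2] at hi
    exact hi
  have hp3' : ∀ i, p3 i → (∀ j, j ≠ i → ∀ u : Mat m, u.det ≠ 0 → ip D (rt u (F i)) (F j) = 0) ∧
      W i ≤ (Hn (1 / (2 * (m : ℝ))) D (F i))⁻¹ := by
    intro i hi
    rw [hp3] at hi
    exact hi
  -- spherical forms
  have hmu : ∀ i : {i // p2 i}, ∃ mu : Fin m → ℂ, CuspU m N T (F i.1) (lam i.1) mu ∧
      Monotone (fun j => (mu j).im) ∧ W i.1 ≤ Wt mu := by
    intro i
    obtain ⟨mu, h5, h6⟩ := hp2' i.1 i.2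
    have hmo : Monotone (fun j => ((mu ∘ Tuple.sort (fun j => (mu j).im)) j).im) :=
      Tuple.monotone_sort (fun j => (mu j).im)
    refine ⟨mu ∘ Tuple.sort (fun j => (mu j).im), cuspU_of (hF i.1).1 (h_WYE m N T (F i.1)
      (lam i.1) mu _ h5), hmo, ?_⟩
    rw [← pl_mono _ hmo, pl_perm]
    exact h6
  choose mu hmu1 hmu2 hmu3 using hmu
  obtain ⟨L2, hL2, hb2⟩ := h2 N T D hS P hP {i // p2 i} (fun i => F i.1) (fun i => lam i.1) mu
    (fun i => W i.1) (fun i => ⟨hmu1 i, (hF i.1).2, hmu2 i⟩) (orthn_sub ho p2) hmu3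
  -- forms with orthogonal translates
  have hO3 : OrS D (fun i : {i // p3 i} => F i.1) := by
    refine ⟨fun i => mou_nU F ho i.1, fun i j hij u hu => ?_⟩
    exact (hp3' i.1 i.2).1 j.1 (fun h5 => hij (Subtype.ext h5.symm)) u hu
  obtain ⟨L3, hL3, hb3⟩ := h3 N T D hS P hP {i // p3 i} (fun i => F i.1) (fun i => lam i.1)
    (fun i => hF i.1) hO3
  refine ⟨L, hL, fun J hJ hJP => ?_⟩
  obtain ⟨a, ha⟩ : ∃ a : S → ℝ, a = fun i => ∑ t ∈ J i, ‖L i (1 / 2 + t * Complex.I)‖ ^ 4 :=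
    ⟨_, rfl⟩
  have ha0 : ∀ i, 0 ≤ a i := fun i => by
    rw [ha]
    exact Finset.sum_nonneg (fun t _ => by positivity)
  have e2 : ∀ i : {i // p2 i}, L2 i = L i.1 := fun i => isl_eq (hL2 i) (hL i.1)
  have e3 : ∀ i : {i // p3 i}, L3 i = L i.1 := fun i => isl_eq (hL3 i) (hL i.1)
  obtain ⟨B, hB⟩ : ∃ B : ℝ, B = ((N : ℝ) * P) ^ ε * (N : ℝ) ^ m * P ^ (m ^ 2) := ⟨_, rfl⟩
  have hB1 : ∑ i, a i ≤ C1 * B := by
    rw [hB, ha]
    refine (hb1 J hJ hJP).trans (le_of_eq ?_)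
    ring
  have hB2 : ∑ i ∈ Finset.univ.filter p2, W i * a i ≤ C2 * B := by
    have h4 := hb2 (fun i => J i.1) (fun i => hJ i.1) (fun i => hJP i.1)
    simp only [e2] at h4
    rw [Finset.sum_subtype (Finset.univ.filter p2) (p := p2) (fun i => by simp)
      (fun i => W i * a i), hB, ha]
    refine h4.trans (le_of_eq ?_)
    ring
  have hB3 : ∑ i ∈ Finset.univ.filter p3, (Hn (1 / (2 * (m : ℝ))) D (F i))⁻¹ * a i ≤ C3 * B := by
    have h4 := hb3 (fun i => J i.1) (fun i => hJ i.1) (fun i => hJP i.1)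
    simp only [e3] at h4
    rw [Finset.sum_subtype (Finset.univ.filter p3) (p := p3) (fun i => by simp)
      (fun i => (Hn (1 / (2 * (m : ℝ))) D (F i))⁻¹ * a i), hB, ha]
    refine h4.trans (le_of_eq ?_)
    ring
  have hHn : ∀ i, 0 ≤ Hn (1 / (2 * (m : ℝ))) D (F i) := fun i =>
    integral_nonneg fun u => by positivity
  have hpt : ∀ i, W i * a i ≤ a i + (if p2 i then W i * a i else 0) +
      (if p3 i then (Hn (1 / (2 * (m : ℝ))) D (F i))⁻¹ * a i else 0) := by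
    intro i
    have h5 : 0 ≤ (if p2 i then W i * a i else 0) := by
      split_ifs
      · exact mul_nonneg (hW0 i) (ha0 i)
      · exact le_rfl
    have h6 : 0 ≤ (if p3 i then (Hn (1 / (2 * (m : ℝ))) D (F i))⁻¹ * a i else 0) := by
      split_ifs
      · exact mul_nonneg (inv_nonneg.2 (hHn i)) (ha0 i)
      · exact le_rfl
    rcases hW i with h4 | h4 | h4
    · have := mul_le_of_le_one_left (ha0 i) h4
      linarith
    · have h7 : p2 i := by rw [hp2]; exact h4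
      rw [if_pos h7]
      have := ha0 i
      linarith
    · have h7 : p3 i := by rw [hp3]; exact h4
      rw [if_pos h7]
      have := mul_le_mul_of_nonneg_right h4.2 (ha0 i)
      have := ha0 i
      linarith
  calc ∑ i, W i * ∑ t ∈ J i, ‖L i (1 / 2 + t * Complex.I)‖ ^ 4 = ∑ i, W i * a i := by rw [ha]
    _ ≤ ∑ i, (a i + (if p2 i then W i * a i else 0) +
        (if p3 i then (Hn (1 / (2 * (m : ℝ))) D (F i))⁻¹ * a i else 0)) :=
        Finset.sum_le_sum (fun i _ => hpt i)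
    _ = ∑ i, a i + ∑ i ∈ Finset.univ.filter p2, W i * a i +
        ∑ i ∈ Finset.univ.filter p3, (Hn (1 / (2 * (m : ℝ))) D (F i))⁻¹ * a i := by
        rw [Finset.sum_add_distrib, Finset.sum_add_distrib, Finset.sum_filter, Finset.sum_filter]
    _ ≤ C1 * B + C2 * B + C3 * B := add_le_add (add_le_add hB1 hB2) hB3
    _ = _ := by
        rw [hB]
        ring

end Pool.Agent.H27.L1.H34.GHK
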