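import Pool.Agent.H27.L1.H34.GHK.GBB
import Pool.Agent.H27.L1.H68.GHK.Targets

/-!
Row GBH of the board ghk: the hybrid fourth moment at well spaced points, with the weights, directly from
the row LSK.
-/

set_option autoImplicit false

namespace Pool.Agent.H27.L1.H34.GHK

open MeasureTheory Pool.Agent.H27.L1.H34.GM Pool.Agent.H27.L1.H34.GZ Pool.Agent.H27.L1.H34.GU Pool.Agent.H27.L1.H34.GA
open Pool.Agent.H27.L1.H68.GHY Pool.Agent.H27.L1.H23.GB Pool.Agent.H27.L1.H34.GHY Pool.Agent.H27.L1.H34.GZZ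
open Pool.Agent.H27.L1.H68.GHK Pool.Agent.H27.L1.H23.GHK

theorem pf_GBH (hPRF : T_PRF) (hENA : T_ENA) (hHYZ : T_HYZ) (hENG : T_ENG) (hTBS : T_TBS)
    (hGAL : T_GAL) (hSQD : T_SQD) (hLSK : T_LSK) : T_GBH := by
  obtain ⟨χ, hχ⟩ := hPRF
  intro m hm1 r ε hr hε
  obtain ⟨c0, CM, AM, hc0, hCM, hK⟩ := hLSK m χ r hm1 hχ hr
  have hCM0 : 0 < CM := by linarith
  obtain ⟨c', hc', hc'1, hc'0⟩ : ∃ c' : ℝ, 0 < c' ∧ c' ≤ 1 / 2 ∧ c' ≤ c0 / 2 :=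
    ⟨min (1 / 2) (c0 / 2), lt_min (by norm_num) (by positivity), min_le_left _ _,
      min_le_right _ _⟩
  obtain ⟨C, hC, hb⟩ := gbb hENA hHYZ hENG hTBS hGAL hSQD m hm1 ε hε χ hχ CM⁻¹ CM AM
    (by positivity) hCM c' hc' hc'1
  refine ⟨C, hC, ?_⟩
  intro N _ T D hS P hP ι _ _ F lam hF hO
  have hP0 : 0 < P := by linarith
  have hH : ∀ i, 0 ≤ Hn r D (F i) := fun i => integral_nonneg fun u => by positivity
  obtain ⟨δ, hδ⟩ : ∃ δ : ℝ, δ = c' / P := ⟨_, rfl⟩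
  have hδ0 : 0 < δ := by rw [hδ]; positivity
  have hδP : δ * P = c' := by rw [hδ]; field_simp
  have hδP1 : δ ≤ δ * P := le_mul_of_one_le_right hδ0.le hP
  have hδ1 : δ ≤ 1 / 2 := by linarith
  have hδP2 : δ * (1 + P) ≤ c0 := by linarith
  refine hb N T D hS P hP ι F lam (fun i => (Hn r D (F i))⁻¹)
    (fun i => ⟨(hF i).1, (hF i).2, hO.one i⟩) (fun i => inv_nonneg.2 (hH i)) δ hδ ?_
  intro Y _ hY y a x0 hy ha hx0
  have h1 := hK N T D hS ι F lam (fun _ => P) (fun i => ⟨(hF i).1, (hF i).2, hP0.le⟩) hO δ hδ0 hδ1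
    (fun _ => hδP2) y a x0 Y hy ha hx0 hY
  have h2 : ENNReal.ofReal (CM⁻¹ * tb m χ δ ^ 2) =
      ENNReal.ofReal CM⁻¹ * ENNReal.ofReal (tb m χ δ ^ 2) := ENNReal.ofReal_mul (by positivity)
  have h3 : ∑ i, ENNReal.ofReal (Hn r D (F i))⁻¹ * ENNReal.ofReal (‖Bs m (lam i) a y δ x0‖ ^ 2) =
      ∑ i, ENNReal.ofReal (‖Bs m (lam i) a y δ x0‖ ^ 2 * (Hn r D (F i))⁻¹) := by
    refine Finset.sum_congr rfl (fun i _ => ?_)
    rw [← ENNReal.ofReal_mul (inv_nonneg.2 (hH i)), mul_comm]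
  rw [h2, h3, mul_assoc]
  calc ENNReal.ofReal CM⁻¹ * (ENNReal.ofReal (tb m χ δ ^ 2) *
        ∑ i, ENNReal.ofReal (‖Bs m (lam i) a y δ x0‖ ^ 2 * (Hn r D (F i))⁻¹)) ≤
      ENNReal.ofReal CM⁻¹ * (ENNReal.ofReal CM *
        ∫⁻ g in DY D Y, Ed N D δ y x0 (mt g) ∂(hm m)) := mul_le_mul_right h1 _
    _ = ∫⁻ g in DY D Y, Ed N D δ y x0 (mt g) ∂(hm m) := by
        rw [← mul_assoc, ← ENNReal.ofReal_mul (by positivity), inv_mul_cancel₀ hCM0.ne',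
          ENNReal.ofReal_one, one_mul]

end Pool.Agent.H27.L1.H34.GHK
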