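import Pool.Agent.H27.L1.H34.GZZ.GBZ

/-!
Board ghk: the fourth moment at well spaced points with weights, from the weighted sum of the weights and
the weighted fourth moment of the truncated L-functions.
-/

set_option autoImplicit false

namespace Pool.Agent.H27.L1.H34.GHK

open MeasureTheory Pool.Agent.H27.L1.H34.GM Pool.Agent.H27.L1.H34.GZ Pool.Agent.H27.L1.H34.GU Pool.Agent.H27.L1.H34.GA
open Pool.Agent.H27.L1.H68.GHY Pool.Agent.H27.L1.H23.GB Pool.Agent.H27.L1.H34.GHY Pool.Agent.H27.L1.H34.GZZ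

theorem gbk (hENA : T_ENA) (hHYA : T_HYZ) (m : ℕ) (hm1 : 1 ≤ m) (ε : ℝ) (hε : 0 < ε) :
    ∃ e1 A : ℝ, 0 < e1 ∧ 1 ≤ A ∧ ∀ c' C1 C3 : ℝ, 0 < c' → c' ≤ 1 / 2 → 0 < C1 → 0 < C3 →
    ∃ C : ℝ, 0 < C ∧
    ∀ (N : ℕ) [NeZero N] (T : ℕ → Finset (ZM m)) (D : Set (V m)), SysZ m N T D →
    ∀ P : ℝ, 1 ≤ P → ∀ (ι : Type) [Fintype ι] [DecidableEq ι] (F : ι → Mat m → VN m N → ℂ)
      (lam : ι → ℕ → ℂ) (W : ι → ℝ),
      (∀ i, CusB m N T (F i) (lam i) ∧ Lip D (F i) P ∧ nU D (F i) = 1) → (∀ i, 0 ≤ W i) →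
      ∀ δ : ℝ, δ = c' / P →
      (∑ i, W i) * δ⁻¹ ≤ C3 * ((N : ℝ) * δ⁻¹) ^ e1 * (N : ℝ) ^ m * δ⁻¹ ^ (m ^ 2) →
      (∀ X : ℝ, 1 ≤ X →
        X ≤ A * ((N : ℝ) ^ ((1 : ℝ) / 2) * δ⁻¹ ^ ((m : ℝ) / 2)) * ((N : ℝ) * δ⁻¹) ^ e1 →
        ∀ τ : ℝ, ∑ i, ENNReal.ofReal (W i) *
          ∫⁻ t in Set.Icc (-δ⁻¹) δ⁻¹, ENNReal.ofReal (‖SD (lam i) X (t + τ)‖ ^ 4) ≤
            ENNReal.ofReal (C1 * ((N : ℝ) * δ⁻¹) ^ ((2 * m + 4) * e1) * (N : ℝ) ^ m *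
              δ⁻¹ ^ (m ^ 2))) →
      ∃ L : ι → ℂ → ℂ, (∀ i, IsL m 1 (lam i) (L i)) ∧
        ∀ J : ι → Finset ℝ, (∀ i, Wsp (J i)) → (∀ i, ∀ t ∈ J i, |t| ≤ P) →
        ∑ i, W i * ∑ t ∈ J i, ‖L i (1 / 2 + t * Complex.I)‖ ^ 4 ≤
          C * ((N : ℝ) * P) ^ ε * (N : ℝ) ^ m * P ^ (m ^ 2) := by
  obtain ⟨e1, he1, he1ε⟩ : ∃ e1 : ℝ, 0 < e1 ∧ (2 * m + 8) * e1 = ε :=
    ⟨ε / (2 * m + 8), by positivity, by field_simp⟩
  obtain ⟨C2, hC2, hH⟩ := hHYA m hm1 e1 he1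
  obtain ⟨k, hkd⟩ : ∃ k : ℝ → ℝ, k = fun τ => ((1 + |τ|) ^ 4)⁻¹ := ⟨_, rfl⟩
  have hkc : Continuous k := by
    rw [hkd]
    refine Continuous.inv₀ (by fun_prop) (fun τ => ?_)
    positivity
  have hknn : ∀ τ, 0 ≤ k τ := fun τ => by rw [hkd]; positivity
  have hk1 : ∀ τ, k τ ≤ 1 * ((1 + |τ|) ^ 4)⁻¹ := fun τ => by rw [hkd, one_mul]
  obtain ⟨C2', hC2'⟩ : ∃ C2' : ℝ, C2' = max C2 1 := ⟨_, rfl⟩
  have hC2'1 : 1 ≤ C2' := by rw [hC2']; exact le_max_right _ _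
  have hC2'2 : C2 ≤ C2' := by rw [hC2']; exact le_max_left _ _
  obtain ⟨B, hB, hW⟩ := wsp_int4 k hkc hknn 1 one_pos hk1
  refine ⟨e1, 2 * C2', he1, by linarith, ?_⟩
  intro c' C1 C3 hc' hc'1 hC1 hC3
  set S2 : ℝ := ∑' j : ℤ, ((1 + |(j : ℝ)|) ^ 2)⁻¹ with hS2
  have hS2nn : 0 ≤ S2 := tsum_nonneg (fun j => by positivity)
  -- the final constant
  set K : ℝ := 8 * C2 ^ 4 * ((c'⁻¹ ^ e1 * c'⁻¹ ^ (m ^ 2)) * (4 * C3) +
    (c'⁻¹ ^ ((2 * m + 4) * e1) * c'⁻¹ ^ (m ^ 2)) * (B * S2 * C1)) with hK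
  have hKnn : 0 ≤ K := by positivity
  refine ⟨K + 1, by positivity, ?_⟩
  intro N _ T D hSys P hP1 ι _ _ F lam W hF hW0 δ hδ hcard hdyd0
  have hN2 := hSys.two_le
  have hN0 : (0 : ℝ) < N := by
    have : 0 < N := by omega
    exact_mod_cast this
  have hN1 : (1 : ℝ) ≤ N := by
    have : 1 ≤ N := by omega
    exact_mod_cast this
  have hP0 : 0 < P := by linarith
  have hn1 : ∀ i, nU D (F i) = 1 := fun i => (hF i).2.2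
  have hnz : ∀ i, NZ (F i) := fun i => mou_nz hm1 hSys.dom (F i) (by rw [hn1 i]; exact one_ne_zero)
  have hL0 : ∀ i, ∃ L : ℂ → ℂ, IsL m 1 (lam i) L ∧ ∀ ψ : ℝ → ℂ, Wc m ψ (lam i) →
      ∀ s : ℂ, LmA m ψ (lam i) s = L s * MelA m ψ s := fun i =>
    hENA m N T D hSys (F i) (lam i) (hF i).1 (hnz i)
  choose L hLL hLm using hL0
  refine ⟨L, hLL, ?_⟩
  intro J hJ hJP
  -- parameters
  have hδ0 : 0 < δ := by rw [hδ]; positivity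
  have hδP : δ * P = c' := by rw [hδ]; field_simp
  have hδ1 : δ ≤ 1 / 2 := by
    have : δ ≤ δ * P := le_mul_of_one_le_right hδ0.le hP1
    linarith
  have hδP2 : δ * (1 + P) ≤ 2 * c' := by
    have : δ ≤ δ * P := le_mul_of_one_le_right hδ0.le hP1
    linarith
  have hδi : δ⁻¹ = c'⁻¹ * P := by rw [hδ]; field_simp
  have hc'i : 1 ≤ c'⁻¹ := by
    rw [one_le_inv₀ hc']
    linarith
  have hPδ : P ≤ δ⁻¹ := by
    rw [hδi]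
    exact le_mul_of_one_le_left hP0.le hc'i
  have hδi1 : 1 ≤ δ⁻¹ := hP1.trans hPδ
  have hNP : 1 ≤ (N : ℝ) * P := by nlinarith
  -- the length
  obtain ⟨X0, hX0⟩ : ∃ X0 : ℝ, X0 = C2' * ((N : ℝ) * P ^ m) ^ (1 / 2 : ℝ) * (N * P) ^ e1 := ⟨_, rfl⟩
  have hX01 : 1 ≤ X0 := by
    rw [hX0]
    have e1' : 1 ≤ ((N : ℝ) * P ^ m) ^ (1 / 2 : ℝ) := by
      refine Real.one_le_rpow ?_ (by norm_num)
      have : 1 ≤ P ^ m := one_le_pow₀ hP1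
      nlinarith
    have e2' : 1 ≤ ((N : ℝ) * P) ^ e1 := Real.one_le_rpow hNP he1.le
    calc (1 : ℝ) = 1 * 1 * 1 := by norm_num
      _ ≤ _ := by gcongr
  obtain ⟨X, hX⟩ : ∃ X : ℕ, X = ⌈X0⌉₊ := ⟨_, rfl⟩
  have hXge : X0 ≤ X := by rw [hX]; exact Nat.le_ceil _
  have hXle : (X : ℝ) ≤ 2 * X0 := by
    rw [hX]
    have := Nat.ceil_lt_add_one (by linarith : 0 ≤ X0)
    linarith
  have hXle2 : (X : ℝ) ≤ 2 * C2' * ((N : ℝ) ^ ((1 : ℝ) / 2) * δ⁻¹ ^ ((m : ℝ) / 2)) *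
      ((N : ℝ) * δ⁻¹) ^ e1 := by
    refine hXle.trans ?_
    rw [hX0, Real.mul_rpow hN0.le (by positivity), ← Real.rpow_natCast P m, ← Real.rpow_mul hP0.le]
    have e3 : P ^ ((m : ℝ) * (1 / 2)) ≤ δ⁻¹ ^ ((m : ℝ) / 2) := by
      rw [show (m : ℝ) * (1 / 2) = (m : ℝ) / 2 by ring]
      exact Real.rpow_le_rpow hP0.le hPδ (by positivity)
    have e4 : ((N : ℝ) * P) ^ e1 ≤ ((N : ℝ) * δ⁻¹) ^ e1 :=
      Real.rpow_le_rpow (by positivity) (mul_le_mul_of_nonneg_left hPδ hN0.le) he1.le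
    calc 2 * (C2' * ((N : ℝ) ^ (1 / 2 : ℝ) * P ^ ((m : ℝ) * (1 / 2))) * ((N : ℝ) * P) ^ e1) =
        2 * C2' * ((N : ℝ) ^ (1 / 2 : ℝ) * P ^ ((m : ℝ) * (1 / 2))) * ((N : ℝ) * P) ^ e1 := by ring
      _ ≤ _ := by gcongr
  have hX1 : (1 : ℝ) ≤ X := hX01.trans hXge
  -- the family
  have hdyd := hdyd0 X hX1 hXle2
  -- one value
  set f : ι → ℝ → ℝ := fun i u => ‖SD (lam i) X u‖ with hf
  have hfc : ∀ i, Continuous (f i) := fun i => (sd_cont (lam i) X).norm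
  have hf0 : ∀ i u, 0 ≤ f i u := fun i u => norm_nonneg _
  have hfi : ∀ i t, Integrable (fun τ => k τ * f i (t + τ)) := by
    intro i t
    obtain ⟨Bb, hBb⟩ := sd_bdd (lam i) X
    refine krn_int4 hkc hknn hk1 (f i) (hfc i) Bb (fun u => ?_) t
    rw [abs_of_nonneg (hf0 i u)]
    exact hBb u
  have hval : ∀ i, ∀ t ∈ J i, ‖L i (1 / 2 + t * Complex.I)‖ ^ 4 ≤
      (8 * C2 ^ 4 * ((N : ℝ) * P) ^ (4 * e1)) * (1 + (∫ τ : ℝ, k τ * f i (t + τ)) ^ 4) := by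
    intro i t ht
    have h1 := hH N T D hSys (F i) (lam i) P (hF i).1 (hn1 i) (hF i).2.1 hP1
      (L i) (hLL i) t (hJP i t ht) X (by
        refine le_trans ?_ hXge
        rw [hX0]
        gcongr)
    have h2 : ∫ τ : ℝ, ((1 + |τ|) ^ 4)⁻¹ * ‖SX (lam i) X (1 / 2 + ((t + τ : ℝ) : ℂ) * Complex.I)‖ =
        ∫ τ : ℝ, k τ * f i (t + τ) := by
      refine integral_congr_ae (Filter.Eventually.of_forall (fun τ => ?_))
      show ((1 + |τ|) ^ 4)⁻¹ * _ = k τ * f i (t + τ)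
      rw [hf, hkd]
      simp only
      rw [← sx_sd]
    rw [h2] at h1
    have h3 : 0 ≤ ∫ τ : ℝ, k τ * f i (t + τ) :=
      integral_nonneg (fun τ => mul_nonneg (hknn τ) (hf0 i _))
    obtain ⟨I, hI⟩ : ∃ I : ℝ, I = ∫ τ : ℝ, k τ * f i (t + τ) := ⟨_, rfl⟩
    rw [← hI] at h1 h3 ⊢
    have h5 := pow_le_pow_left₀ (norm_nonneg _) h1 4
    refine h5.trans ?_
    have h6 : (1 + I) ^ 4 ≤ 8 * (1 + I ^ 4) := by
      nlinarith [sq_nonneg (I - 1), sq_nonneg (I ^ 2 - 1), sq_nonneg (I + 1), mul_nonneg h3 h3,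
        mul_nonneg (mul_nonneg h3 h3) (sq_nonneg (I - 1))]
    have h7 : (((N : ℝ) * P) ^ e1) ^ 4 = ((N : ℝ) * P) ^ (4 * e1) := by
      rw [← Real.rpow_natCast, ← Real.rpow_mul (by positivity)]
      congr 1
      push_cast
      ring
    calc (C2 * ((N : ℝ) * P) ^ e1 * (1 + I)) ^ 4 = C2 ^ 4 * (((N : ℝ) * P) ^ e1) ^ 4 * (1 + I) ^ 4 := by
          ring
      _ ≤ C2 ^ 4 * (((N : ℝ) * P) ^ e1) ^ 4 * (8 * (1 + I ^ 4)) := by gcongr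
      _ = _ := by rw [h7]; ring
  -- the sum of the smoothed values
  have hsm : ∑ i, W i * ∑ t ∈ J i, (∫ τ : ℝ, k τ * f i (t + τ)) ^ 4 ≤
      B * S2 * (C1 * ((N : ℝ) * δ⁻¹) ^ ((2 * m + 4) * e1) * (N : ℝ) ^ m * δ⁻¹ ^ (m ^ 2)) := by
    obtain ⟨Q, hQ⟩ : ∃ Q : ℝ, Q = C1 * ((N : ℝ) * δ⁻¹) ^ ((2 * m + 4) * e1) * (N : ℝ) ^ m *
      δ⁻¹ ^ (m ^ 2) := ⟨_, rfl⟩
    have hQ0 : 0 ≤ Q := by rw [hQ]; positivity
    rw [← hQ] at hdyd ⊢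
    have e5 : ENNReal.ofReal (∑ i, W i * ∑ t ∈ J i, (∫ τ : ℝ, k τ * f i (t + τ)) ^ 4) ≤
        ENNReal.ofReal (B * S2 * Q) := by
      rw [ENNReal.ofReal_sum_of_nonneg (fun i _ => mul_nonneg (hW0 i) (Finset.sum_nonneg
        (fun t _ => Even.pow_nonneg (by decide) _)))]
      calc ∑ i, ENNReal.ofReal (W i * ∑ t ∈ J i, (∫ τ : ℝ, k τ * f i (t + τ)) ^ 4) =
          ∑ i, ENNReal.ofReal (W i) *
            ∑ t ∈ J i, ENNReal.ofReal ((∫ τ : ℝ, k τ * f i (t + τ)) ^ 4) := by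
            refine Finset.sum_congr rfl (fun i _ => ?_)
            rw [ENNReal.ofReal_mul (hW0 i),
              ENNReal.ofReal_sum_of_nonneg (fun t _ => Even.pow_nonneg (by decide) _)]
        _ ≤ ∑ i, ENNReal.ofReal (W i) * ∑' j : ℤ, ENNReal.ofReal (B * ((1 + |(j : ℝ)|) ^ 2)⁻¹) *
            ∫⁻ u in Set.Icc (-δ⁻¹) δ⁻¹, ENNReal.ofReal (f i (u + 2 * j * δ⁻¹) ^ 4) :=
            Finset.sum_le_sum (fun i _ => mul_le_mul_right (hW δ⁻¹ (J i) (f i) hδi1 (hJ i)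
              (fun t ht => (hJP i t ht).trans hPδ) (hfc i) (hf0 i) (hfi i)) _)
        _ = ∑ i, ∑' j : ℤ, ENNReal.ofReal (B * ((1 + |(j : ℝ)|) ^ 2)⁻¹) *
            (ENNReal.ofReal (W i) *
              ∫⁻ u in Set.Icc (-δ⁻¹) δ⁻¹, ENNReal.ofReal (f i (u + 2 * j * δ⁻¹) ^ 4)) := by
            refine Finset.sum_congr rfl (fun i _ => ?_)
            rw [← ENNReal.tsum_mul_left]
            refine tsum_congr (fun j => ?_)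
            rw [mul_left_comm]
        _ = ∑' j : ℤ, ∑ i, ENNReal.ofReal (B * ((1 + |(j : ℝ)|) ^ 2)⁻¹) *
            (ENNReal.ofReal (W i) *
              ∫⁻ u in Set.Icc (-δ⁻¹) δ⁻¹, ENNReal.ofReal (f i (u + 2 * j * δ⁻¹) ^ 4)) :=
            (Summable.tsum_finsetSum (fun i _ => ENNReal.summable)).symm
        _ ≤ ∑' j : ℤ, ENNReal.ofReal (B * ((1 + |(j : ℝ)|) ^ 2)⁻¹) * ENNReal.ofReal Q := by
            refine ENNReal.tsum_le_tsum (fun j => ?_)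
            rw [← Finset.mul_sum]
            exact mul_le_mul_right (hdyd (2 * j * δ⁻¹)) _
        _ = ENNReal.ofReal (B * S2 * Q) := by
            rw [ENNReal.tsum_mul_right, ENNReal.ofReal_mul (by positivity)]
            congr 1
            rw [hS2, ← tsum_mul_left, ENNReal.ofReal_tsum_of_nonneg (fun j => by positivity)
              (summable_int_sq.mul_left B)]
    exact (ENNReal.ofReal_le_ofReal_iff (by positivity)).1 e5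
  -- the number of the points
  have hWs : 0 ≤ ∑ i, W i := Finset.sum_nonneg (fun i _ => hW0 i)
  have hct : ∑ i, W i * ∑ _t ∈ J i, (1 : ℝ) ≤
      4 * (C3 * ((N : ℝ) * δ⁻¹) ^ e1 * (N : ℝ) ^ m * δ⁻¹ ^ (m ^ 2)) := by
    calc ∑ i, W i * ∑ _t ∈ J i, (1 : ℝ) = ∑ i, W i * ((J i).card : ℝ) := by simp
      _ ≤ ∑ i, W i * (4 * P) := Finset.sum_le_sum (fun i _ =>
          mul_le_mul_of_nonneg_left (wsp_card (hJ i) hP1 (hJP i)) (hW0 i))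
      _ = 4 * ((∑ i, W i) * P) := by
          rw [← Finset.sum_mul]
          ring
      _ ≤ 4 * ((∑ i, W i) * δ⁻¹) := by gcongr
      _ ≤ _ := by gcongr
  -- powers of the scale
  have hpow : ∀ a : ℝ, 0 ≤ a → ((N : ℝ) * δ⁻¹) ^ a = c'⁻¹ ^ a * ((N : ℝ) * P) ^ a := by
    intro a _
    rw [hδi, show (N : ℝ) * (c'⁻¹ * P) = c'⁻¹ * (N * P) by ring,
      Real.mul_rpow (by positivity) (by positivity)]
  have hpow2 : δ⁻¹ ^ (m ^ 2) = c'⁻¹ ^ (m ^ 2) * P ^ (m ^ 2) := by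
    rw [hδi, mul_pow]
  have hmm : (0 : ℝ) ≤ m := by positivity
  calc ∑ i, W i * ∑ t ∈ J i, ‖L i (1 / 2 + t * Complex.I)‖ ^ 4 ≤
      ∑ i, W i * ∑ t ∈ J i, (8 * C2 ^ 4 * ((N : ℝ) * P) ^ (4 * e1)) *
        (1 + (∫ τ : ℝ, k τ * f i (t + τ)) ^ 4) :=
        Finset.sum_le_sum (fun i _ => mul_le_mul_of_nonneg_left
          (Finset.sum_le_sum (fun t ht => hval i t ht)) (hW0 i))
    _ = (8 * C2 ^ 4 * ((N : ℝ) * P) ^ (4 * e1)) * (∑ i, W i * ∑ _t ∈ J i, (1 : ℝ) +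
        ∑ i, W i * ∑ t ∈ J i, (∫ τ : ℝ, k τ * f i (t + τ)) ^ 4) := by
        rw [← Finset.sum_add_distrib, Finset.mul_sum]
        refine Finset.sum_congr rfl (fun i _ => ?_)
        rw [← mul_add, ← Finset.sum_add_distrib, ← Finset.mul_sum]
        ring
    _ ≤ (8 * C2 ^ 4 * ((N : ℝ) * P) ^ (4 * e1)) *
        (4 * (C3 * ((N : ℝ) * δ⁻¹) ^ e1 * (N : ℝ) ^ m * δ⁻¹ ^ (m ^ 2)) +
        B * S2 * (C1 * ((N : ℝ) * δ⁻¹) ^ ((2 * m + 4) * e1) * (N : ℝ) ^ m * δ⁻¹ ^ (m ^ 2))) := by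
        gcongr
    _ = 8 * C2 ^ 4 * ((c'⁻¹ ^ e1 * c'⁻¹ ^ (m ^ 2)) * (4 * C3) *
          (((N : ℝ) * P) ^ (4 * e1) * ((N : ℝ) * P) ^ e1) +
        (c'⁻¹ ^ ((2 * m + 4) * e1) * c'⁻¹ ^ (m ^ 2)) * (B * S2 * C1) *
          (((N : ℝ) * P) ^ (4 * e1) * ((N : ℝ) * P) ^ ((2 * m + 4) * e1))) *
            ((N : ℝ) ^ m * P ^ (m ^ 2)) := by
        rw [hpow _ he1.le, hpow _ (by positivity), hpow2]
        ring
    _ ≤ 8 * C2 ^ 4 * ((c'⁻¹ ^ e1 * c'⁻¹ ^ (m ^ 2)) * (4 * C3) * ((N : ℝ) * P) ^ ε +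
        (c'⁻¹ ^ ((2 * m + 4) * e1) * c'⁻¹ ^ (m ^ 2)) * (B * S2 * C1) * ((N : ℝ) * P) ^ ε) *
            ((N : ℝ) ^ m * P ^ (m ^ 2)) := by
        have e6 : ((N : ℝ) * P) ^ (4 * e1) * ((N : ℝ) * P) ^ e1 ≤ ((N : ℝ) * P) ^ ε := by
          rw [← Real.rpow_add (by positivity)]
          refine Real.rpow_le_rpow_of_exponent_le hNP ?_
          rw [← he1ε]
          nlinarith
        have e7 : ((N : ℝ) * P) ^ (4 * e1) * ((N : ℝ) * P) ^ ((2 * m + 4) * e1) ≤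
            ((N : ℝ) * P) ^ ε := by
          rw [← Real.rpow_add (by positivity)]
          refine Real.rpow_le_rpow_of_exponent_le hNP ?_
          rw [← he1ε]
          nlinarith
        gcongr
    _ = K * ((N : ℝ) * P) ^ ε * (N : ℝ) ^ m * P ^ (m ^ 2) := by
        rw [hK]
        ring
    _ ≤ (K + 1) * ((N : ℝ) * P) ^ ε * (N : ℝ) ^ m * P ^ (m ^ 2) := by
        gcongr
        linarith

end Pool.Agent.H27.L1.H34.GHK
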